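import Pool.Agent.Helper65.GN.Reach
import Pool.Agent.Helper65.GN.Tower
import Pool.Agent.Helper65.TH.Families

/-!
Asymptotic property C for unions of ascending series of subgroups.
-/

set_option autoImplicit false

namespace Pool.Agent.Helper65.Shelf.AscendantUnions

open Pool.Agent.Helper65.TH Pool.Agent.Helper65.GN
open Pool.Agent.Helper75.Apc (HasFamilies)

/-- Let `G` be a group with a proper left-invariant metric. Suppose that `G` is the union of an
increasing sequence of subgroups `H n` of finite asymptotic dimension such that every `H n` is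
normal in `H (n + 1)`, or more generally that every finite subset of `G` lies in a subgroup `H` of
finite asymptotic dimension or of locally polynomial growth, from which `G` can be reached by an
ascending series (see `Nice`). Then `G` has asymptotic property C, and the number of families
needed for a sequence `R` depends only on its first member `R 0`. -/
theorem result {G : Type*} [Group G] [MetricSpace G]
    (hinv : ∀ a b c : G, dist (a * b) (a * c) = dist b c)
    (hprop : ∀ r : ℝ, (Metric.closedBall (1 : G) r).Finite)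
    (h : (∃ H : ℕ → Subgroup G, (∀ n, H n ≤ H (n + 1)) ∧
        (∀ n, ∀ g ∈ H (n + 1), ∀ k ∈ H n, g * k * g⁻¹ ∈ H n) ∧ (∀ g : G, ∃ n, g ∈ H n) ∧
        ∀ n, ∃ t : ℕ, AsdimLT (H n) t) ∨ Nice (⊤ : Subgroup G)) :
    ∃ n : ℝ → ℕ, ∀ R : ℕ → ℝ, (∀ i, 0 < R i) → Monotone R → HasFamilies G R (n (R 0)) := by
  have hN : Nice (⊤ : Subgroup G) := by
    rcases h with ⟨H, hle, hn, hun, has⟩ | h
    · exact nice_of_tower H hle hn hun has
    · exact h
  have hcore : ∀ T : Finset G, (∀ s ∈ T, s⁻¹ ∈ T) → ∃ n : ℕ, ∀ S : Finset G, T ⊆ S →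
      (∀ s ∈ S, s⁻¹ ∈ S) → ∃ (A : ℕ → Set G) (E : Finset G), (∀ x, ∃ j < n, x ∈ A j) ∧
      (∀ x ∈ A 0, ∀ y, Chain (T : Set G) (fun b => b ∈ A 0) x y → x⁻¹ * y ∈ E) ∧
      ∀ j, 1 ≤ j → j < n → ∀ x ∈ A j, ∀ y,
        Chain (S : Set G) (fun b => b ∈ A j) x y → x⁻¹ * y ∈ E := by
    intro T _
    obtain ⟨n, hn⟩ := hN.sep inferInstance T (fun s _ => Subgroup.mem_top s)
    refine ⟨n + 1, fun S _ _ => ?_⟩
    obtain ⟨w, E, hw, h0, hj⟩ := hn T S (fun s hs => Subgroup.subset_closure hs)
      (fun s _ => Subgroup.mem_top s)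
    exact ⟨fun j => {x | w x = j}, E, fun x => ⟨w x, Nat.lt_succ_of_le (hw x), rfl⟩, h0,
      fun j hj1 _ => hj j hj1⟩
  choose n hn using fun r : ℝ => hasFamilies_of_core hinv hprop hcore r
  exact ⟨n, fun R hR hmono => hn (R 0) R hR hmono le_rfl⟩

end Pool.Agent.Helper65.Shelf.AscendantUnions
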