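import Pool.Agent.Helper75.Apc.Main

/-!
A countable direct union of groups of locally polynomial growth has asymptotic property C.
-/

set_option autoImplicit false

namespace Pool.Agent.Results.MP_2c6f0d_gt.LocallyPolynomialGrowth

open Pool.Agent.Helper75.Apc

/-- Let `G` be the increasing union of subgroups `H n` each of which has locally polynomial growth,
and let `G` carry a proper left-invariant metric.  Then `G` has asymptotic property C, and the
number of families needed for a sequence `R` depends only on its first member `R 0`. -/
theorem result {G : Type*} [Group G] [MetricSpace G]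
    (hinv : ∀ a b c : G, dist (a * b) (a * c) = dist b c)
    (hprop : ∀ r : ℝ, (Metric.closedBall (1 : G) r).Finite)
    (H : ℕ → Subgroup G) (hmono : Monotone H) (hunion : ∀ g : G, ∃ n, g ∈ H n)
    (hpoly : ∀ n, LocallyPolynomialGrowth (H n)) :
    ∃ n : ℝ → ℕ, ∀ R : ℕ → ℝ, (∀ i, 0 < R i) → Monotone R → HasFamilies G R (n (R 0)) := by
  have key := hasFamilies hinv hprop (fun T i => poly_of_union H hmono hunion hpoly T)
  choose n hn using key
  exact ⟨n, fun R hR hm => hn (R 0) R hR hm le_rfl⟩

end Pool.Agent.Results.MP_2c6f0d_gt.LocallyPolynomialGrowth
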