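import Pool.Agent.Helper65.TH.TClass
import Pool.Agent.Helper65.TH.Criterion

/-!
Asymptotic property C for all countable groups in a class with strong closure properties.
-/

set_option autoImplicit false

namespace Pool.Agent.Results.MP_2c6f0d_gt.PermanenceClass

open Pool.Agent.Helper75.Apc Pool.Agent.Helper65.TH

universe u

/-- Let `G` be a group with a proper left-invariant metric in the class `TC`. Then all finitely
generated subgroups of `G` have finite asymptotic dimension and `G` has asymptotic property C; the
number of families depends on the first radius only. -/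
theorem result (G : Type u) [Group G] [MetricSpace G]
    (hinv : ∀ a b c : G, dist (a * b) (a * c) = dist b c)
    (hprop : ∀ r : ℝ, (Metric.closedBall (1 : G) r).Finite) (hG : TC G) :
    (∀ H : Subgroup G, H.FG → ∃ t : ℕ, ∀ r : ℝ, HasFamilies H (fun _ => r) t) ∧
    ∃ n : ℝ → ℕ, ∀ R : ℕ → ℝ, (∀ i, 0 < R i) → Monotone R → HasFamilies G R (n (R 0)) :=
  conclusion_of_thin hinv hprop hG.tthin.locAsdim hG.tthin

end Pool.Agent.Results.MP_2c6f0d_gt.PermanenceClass
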